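import Mathlib
import Pool.Agent.Helper58.FX.P.Iso

set_option autoImplicit false
open scoped ComplexOrder InnerProductSpace
open Filter Helper17.FU Helper17.FUGroup Helper91.TTT

namespace Pool.Agent.Results.MP_81910f_an.ExoticTopology

/-- extreme normalised positive definite class functions -/
def IsExtremeTrace (G : Subgroup (Equiv.Perm ℚ)) (φ : G → ℂ) : Prop :=
  φ ∈ Set.extremePoints ℝ {ψ : G → ℂ | ψ 1 = 1 ∧ (∀ g h : G, ψ (h * g * h⁻¹) = ψ g) ∧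
    ∀ (s : Finset G) (c : G → ℂ), 0 ≤ ∑ i ∈ s, ∑ j ∈ s, star (c j) * c i * ψ (j⁻¹ * i)}

/-- translations in the group -/
def IsTranslation (G : Subgroup (Equiv.Perm ℚ)) (n : G) : Prop :=
  ∃ r : ℚ, ∀ x : ℚ, (n : Equiv.Perm ℚ) x = x + r

/-- the translates by translations span a finite dimensional space -/
def CondFiniteDim (G : Subgroup (Equiv.Perm ℚ)) (φ : G → ℂ) : Prop :=
  FiniteDimensional ℂ (Submodule.span ℂ {F : G → ℂ | ∃ n : G,
    IsTranslation G n ∧ F = fun x => φ (n * x)})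

/-- the regular trace -/
def IsRegular (G : Subgroup (Equiv.Perm ℚ)) (φ : G → ℂ) : Prop :=
  φ = Set.indicator ({1} : Set G) (fun _ => (1 : ℂ))

/-- counterexamples to the question -/
def IsExotic (G : Subgroup (Equiv.Perm ℚ)) (φ : G → ℂ) : Prop :=
  IsExtremeTrace G φ ∧ ¬ IsRegular G φ ∧ ¬ CondFiniteDim G φ

/-- exotic traces which are pointwise limits of sequences of distinct elements of `A` -/
def Derived (G : Subgroup (Equiv.Perm ℚ)) (A : Set (G → ℂ)) : Set (G → ℂ) :=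
  {ψ | IsExotic G ψ ∧ ∃ x : ℕ → (G → ℂ), (∀ i, x i ∈ A) ∧ Function.Injective x ∧
    ∀ g : G, Tendsto (fun i => x i g) atTop (nhds (ψ g))}

/-- conjugation by the multiplication by `q` maps the group to itself -/
lemma exists_theta (s2 s3 t : Equiv.Perm ℚ) (h2 : ∀ x : ℚ, s2 x = 2 * x)
    (h3 : ∀ x : ℚ, s3 x = 3 * x) (ht : ∀ x : ℚ, t x = x + 1) (q : ℕ) :
    ∃ θ : GG s2 s3 t →* GG s2 s3 t, 1 ≤ q → ∀ (g : GG s2 s3 t) (x : ℚ),
      (θ g : Equiv.Perm ℚ) (q * x) = q * (g : Equiv.Perm ℚ) x := by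
  rcases Nat.eq_zero_or_pos q with h | hq
  · exact ⟨MonoidHom.id _, fun h' => by omega⟩
  have hq0 : (q : ℚ) ≠ 0 := by exact_mod_cast hq.ne'
  set D : Equiv.Perm ℚ := Equiv.mulLeft₀ (q : ℚ) hq0 with hD
  have hDx : ∀ x : ℚ, D x = q * x := fun x => rfl
  have hDi : ∀ x : ℚ, D⁻¹ (q * x) = x := by
    intro x
    rw [Equiv.Perm.inv_eq_iff_eq]
    rfl
  have hmem : ∀ g : Equiv.Perm ℚ, g ∈ Subgroup.closure {s2, s3, t} →
      D * g * D⁻¹ ∈ Subgroup.closure {s2, s3, t} := by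
    intro g hg
    induction hg using Subgroup.closure_induction with
    | mem g hg =>
      simp only [Set.mem_insert_iff, Set.mem_singleton_iff] at hg
      rcases hg with rfl | rfl | rfl
      · have e : D * g * D⁻¹ = g := by
          rw [mul_inv_eq_iff_eq_mul]
          ext x
          rw [Equiv.Perm.mul_apply, Equiv.Perm.mul_apply, h2, hDx, hDx, h2]; ring
        rw [e]; exact Subgroup.subset_closure (by simp)
      · have e : D * g * D⁻¹ = g := by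
          rw [mul_inv_eq_iff_eq_mul]
          ext x
          rw [Equiv.Perm.mul_apply, Equiv.Perm.mul_apply, h3, hDx, hDx, h3]; ring
        rw [e]; exact Subgroup.subset_closure (by simp)
      · have e : D * g * D⁻¹ = g ^ (q : ℤ) := by
          rw [mul_inv_eq_iff_eq_mul]
          ext x
          rw [Equiv.Perm.mul_apply, Equiv.Perm.mul_apply, t_zpow ht, ht, hDx, hDx]
          push_cast; ring
        rw [e]; exact Subgroup.zpow_mem _ (Subgroup.subset_closure (by simp)) _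
    | one => simp
    | mul g k _ _ hg hk =>
      have e : D * (g * k) * D⁻¹ = (D * g * D⁻¹) * (D * k * D⁻¹) := by group
      rw [e]; exact Subgroup.mul_mem _ hg hk
    | inv g _ hg =>
      have e : D * g⁻¹ * D⁻¹ = (D * g * D⁻¹)⁻¹ := by group
      rw [e]; exact Subgroup.inv_mem _ hg
  refine ⟨((MulAut.conj D).toMonoidHom.comp (GG s2 s3 t).subtype).codRestrict (GG s2 s3 t)
    (fun g => hmem g g.2), fun _ g x => ?_⟩
  show (D * (g : Equiv.Perm ℚ) * D⁻¹) (q * x) = q * (g : Equiv.Perm ℚ) x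
  rw [Equiv.Perm.mul_apply, Equiv.Perm.mul_apply, hDi, hDx]

/-- **Accumulation of exotic traces.** -/
theorem result :
  ∀ (s2 s3 t : Equiv.Perm ℚ), (∀ x : ℚ, s2 x = 2 * x) → (∀ x : ℚ, s3 x = 3 * x) →
  (∀ x : ℚ, t x = x + 1) →
  ∀ (G : Subgroup (Equiv.Perm ℚ)), G = Subgroup.closure {s2, s3, t} →
  (∃ θ : ℕ → (G →* G),
    (∀ m : ℕ, 1 ≤ m → ∀ (g : G) (x : ℚ),
      (θ m g : Equiv.Perm ℚ) (m * x) = m * (g : Equiv.Perm ℚ) x) ∧
    ∀ φ : G → ℂ, IsExotic G φ →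
      (∀ m : ℕ, 1 ≤ m → IsExotic G (fun g => φ (θ m g))) ∧
      ∀ k : ℕ, ((Derived G)^[k] {ψ | ∃ m : ℕ, 1 ≤ m ∧ ψ = fun g => φ (θ m g)}).Nonempty) ∧
  List.TFAE [
    ∀ φ : G → ℂ, IsExtremeTrace G φ → IsRegular G φ ∨ CondFiniteDim G φ,
    ∀ ψ : G → ℂ, IsExotic G ψ → ∃ (F : Finset G) (ε : ℝ), 0 < ε ∧
      ∀ φ : G → ℂ, IsExotic G φ → (∀ g ∈ F, ‖φ g - ψ g‖ < ε) → φ = ψ,
    ∃ k : ℕ, (Derived G)^[k] {φ | IsExotic G φ} = ∅,
    ∀ ψ : G → ℂ, IsExtremeTrace G ψ → ¬ IsRegular G ψ → ∃ (F : Finset G) (ε : ℝ), 0 < ε ∧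
      (∀ g ∈ F, IsTranslation G g) ∧
      ∀ φ : G → ℂ, IsExtremeTrace G φ → (∀ g ∈ F, ‖φ g - ψ g‖ < ε) →
        ∀ g : G, IsTranslation G g → φ g = ψ g] := by
  classical
  intro s2 s3 t h2 h3 ht G hG
  subst hG
  obtain ⟨σ2, σ3, τ, hσ2, hσ3, hτ, e2, e3, ecomm, hgen⟩ := relations h2 h3 ht
  choose θ hθ using exists_theta s2 s3 t h2 h3 ht
  have hθτ : ∀ q : ℕ, 1 ≤ q → θ q τ = τ ^ (q : ℤ) := by
    intro q hq
    have hq0 : (q : ℚ) ≠ 0 := by exact_mod_cast (by omega : q ≠ 0)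
    apply Subtype.ext
    ext y
    have h4 := hθ q hq τ (y / q)
    have e : (q : ℚ) * (y / q) = y := by field_simp
    rw [e] at h4
    rw [h4, Subgroup.coe_zpow, hτ, t_zpow ht, ht]
    push_cast
    field_simp
  have hθtr : ∀ q : ℕ, 1 ≤ q → ∀ g : GG s2 s3 t, ¬ IsTr g → ¬ IsTr (θ q g) := by
    rintro q hq g hg ⟨r, hr⟩
    have hq0 : (q : ℚ) ≠ 0 := by exact_mod_cast (by omega : q ≠ 0)
    apply hg
    refine ⟨r / q, fun x => ?_⟩
    have h4 := hθ q hq g x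
    rw [hr] at h4
    field_simp
    linarith
  have hθmul : ∀ m q : ℕ, 1 ≤ m → 1 ≤ q → ∀ g : GG s2 s3 t, θ m (θ q g) = θ (m * q) g := by
    intro m q hm hq g
    have hm0 : (m : ℚ) ≠ 0 := by exact_mod_cast (by omega : m ≠ 0)
    have hq0 : (q : ℚ) ≠ 0 := by exact_mod_cast (by omega : q ≠ 0)
    apply Subtype.ext
    ext y
    have e : y = ((m * q : ℕ) : ℚ) * (y / (m * q)) := by push_cast; field_simp
    have e1 : y = (m : ℚ) * ((q : ℚ) * (y / (m * q))) := by field_simp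
    conv_rhs => rw [e]
    rw [hθ (m * q) (Nat.mul_pos hm hq) g]
    conv_lhs => rw [e1]
    rw [hθ m hm, hθ q hq]
    push_cast
    ring
  have hpull : ∀ φ : GG s2 s3 t → ℂ, IsExotic (GG s2 s3 t) φ →
      ∀ q : ℕ, 1 ≤ q → IsExotic (GG s2 s3 t) (fun g => φ (θ q g)) := by
    rintro φ ⟨hφ, hΔ, hfd⟩ q hq
    exact pullback h2 h3 ht hτ hφ hΔ hfd (θ q) (q := (q : ℤ)) (by omega) (hθτ q hq)
  have hnexo : (∀ φ : GG s2 s3 t → ℂ, IsExtremeTrace (GG s2 s3 t) φ →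
      IsRegular (GG s2 s3 t) φ ∨ CondFiniteDim (GG s2 s3 t) φ) ↔
      ∀ φ : GG s2 s3 t → ℂ, ¬ IsExotic (GG s2 s3 t) φ := by
    constructor
    · rintro h φ ⟨h4, h5, h6⟩
      rcases h φ h4 with h7 | h7
      · exact h5 h7
      · exact h6 h7
    · intro h φ hφ
      by_contra hcon
      push Not at hcon
      exact h φ ⟨hφ, hcon.1, hcon.2⟩
  refine ⟨⟨θ, hθ, fun φ hφ => ⟨hpull φ hφ, fun k => ?_⟩⟩, ?_⟩
  · refine Helper58.FX.der_nonempty h2 h3 ht hτ hθτ hθtr (A := {ψ | ∃ m : ℕ, 1 ≤ m ∧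
      ψ = fun g => φ (θ m g)}) ?_ ?_ ?_ k
    · rintro _ ⟨m, hm, rfl⟩
      exact hpull φ hφ m hm
    · rintro _ ⟨m, hm, rfl⟩ q hq
      refine ⟨m * q, Nat.mul_pos hm hq, ?_⟩
      funext g
      show φ (θ m (θ q g)) = φ (θ (m * q) g)
      rw [hθmul m q hm hq]
    · exact ⟨_, 1, le_rfl, rfl⟩
  · tfae_have 1 → 4 := by
      intro h ψ hψ hne
      exact Helper58.FX.isolated h2 h3 ht hτ (hnexo.mp h) hψ hne
    tfae_have 4 → 2 := by
      intro h ψ hψ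
      obtain ⟨F, ε, hε, -, hF⟩ := h ψ hψ.1 hψ.2.1
      refine ⟨F, ε, hε, fun φ hφ hclose => ?_⟩
      refine Helper58.FX.exo_ext h2 h3 ht hτ hφ hψ (fun n => ?_)
      refine hF φ hφ.1 hclose _ ⟨n, fun x => ?_⟩
      rw [Subgroup.coe_zpow, hτ, t_zpow ht]
    tfae_have 2 → 1 := by
      intro h
      rw [hnexo]
      refine Helper58.FX.no_exo_of_isolated h2 h3 ht hτ hθτ hθtr (fun ψ hψ => ?_)
      obtain ⟨F, ε, hε, hF⟩ := h ψ hψ
      refine ⟨F, ε, hε, fun φ hφ hclose g _ => ?_⟩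
      rw [hF φ hφ hclose]
    tfae_have 1 → 3 := by
      intro h
      refine ⟨0, ?_⟩
      rw [Function.iterate_zero, id, Set.eq_empty_iff_forall_notMem]
      exact fun φ hφ => hnexo.mp h φ hφ
    tfae_have 3 → 1 := by
      rintro ⟨k, hk⟩
      rw [hnexo]
      intro φ hφ
      have := Helper58.FX.der_nonempty h2 h3 ht hτ hθτ hθtr
        (A := {φ : GG s2 s3 t → ℂ | IsExotic (GG s2 s3 t) φ}) (fun _ h => h)
        (fun φ hφ q hq => hpull φ hφ q hq) ⟨φ, hφ⟩ k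
      rw [← Set.not_nonempty_iff_eq_empty] at hk
      exact hk this
    tfae_finish

end Pool.Agent.Results.MP_81910f_an.ExoticTopology
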