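import Mathlib
import Pool.Agent.Helper17.FUGroup
import Pool.Agent.Helper91.TTT.FDim

set_option autoImplicit false
open scoped ComplexOrder InnerProductSpace
open Filter Helper17.FU Helper17.FUGroup Helper91.TTT

namespace Pool.Agent.Results.MP_81910f_an.ScaleFreeRecurrence

/-- **Scale-free recurrence and coefficients of intermediate size.** -/
theorem result :
  ∀ (s2 s3 t : Equiv.Perm ℚ), (∀ x : ℚ, s2 x = 2 * x) → (∀ x : ℚ, s3 x = 3 * x) →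
  (∀ x : ℚ, t x = x + 1) →
  ∀ (G : Subgroup (Equiv.Perm ℚ)), G = Subgroup.closure {s2, s3, t} →
  ∀ φ : G → ℂ,
    φ ∈ Set.extremePoints ℝ {ψ : G → ℂ | ψ 1 = 1 ∧ (∀ g h : G, ψ (h * g * h⁻¹) = ψ g) ∧
        ∀ (s : Finset G) (c : G → ℂ), 0 ≤ ∑ i ∈ s, ∑ j ∈ s, star (c j) * c i * ψ (j⁻¹ * i)} →
    φ = Set.indicator ({1} : Set G) (fun _ => (1 : ℂ)) ∨
    ((∀ h : G, h ≠ 1 → (∃ r : ℚ, ∀ x : ℚ, (h : Equiv.Perm ℚ) x = x + r) →
        ∀ ε : ℝ, 0 < ε → ∃ (N : ℕ) (c : ℕ → ℂ), ∀ g σ : G,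
          ‖φ g - ∑ j ∈ Finset.range N, c j * φ (g * (σ * h * σ⁻¹) ^ (j + 1))‖ ≤ ε) ∧
      (FiniteDimensional ℂ (Submodule.span ℂ {F : G → ℂ | ∃ n : G,
          (∃ r : ℚ, ∀ x : ℚ, (n : Equiv.Perm ℚ) x = x + r) ∧ F = fun x => φ (n * x)}) ∨
        ∀ h : G, h ≠ 1 → (∃ r : ℚ, ∀ x : ℚ, (h : Equiv.Perm ℚ) x = x + r) →
          (∀ ε : ℝ, 0 < ε → ∃ δ : ℝ, 0 < δ ∧ ∃ L : ℕ, ∀ g σ : G, ε ≤ ‖φ g‖ →
            ∃ j : ℕ, 1 ≤ j ∧ j ≤ L ∧ δ ≤ ‖φ (g * (σ * h * σ⁻¹) ^ j)‖ ∧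
              ‖φ (g * (σ * h * σ⁻¹) ^ j)‖ < ε) ∧
          (∀ ε : ℝ, 0 < ε → ∃ j : ℕ, 1 ≤ j ∧ φ (h ^ j) ≠ 0 ∧ ‖φ (h ^ j)‖ < ε))) := by
  intro s2 s3 t h2 h3 ht G hG φ hφ
  subst hG
  have hφ' : φ ∈ Set.extremePoints ℝ
      (TR (Subgroup.closure {s2, s3, t} : Subgroup (Equiv.Perm ℚ))) := hφ
  have hφT := hφ'.1
  have hφ1 : φ 1 = 1 := hφT.1
  have hφc := hφT.2.1
  have hFφ : Fact (PD φ) := ⟨hφT.2.2⟩
  obtain ⟨σ2, σ3, τ, hσ2, hσ3, hτ, e2, e3, ecomm, hgen⟩ := relations h2 h3 ht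
  by_cases hΔ : φ = Set.indicator ({1} : Set (Subgroup.closure {s2, s3, t} :
      Subgroup (Equiv.Perm ℚ))) (fun _ => (1 : ℂ))
  · left; exact hΔ
  right
  set P := σ2 * σ3 with hPdef
  have hP : ∀ j : ℤ, P * τ ^ j * P⁻¹ = τ ^ (6 * j) := by
    intro j
    have e : P * τ ^ j * P⁻¹ = σ2 * (σ3 * τ ^ j * σ3⁻¹) * σ2⁻¹ := by rw [hPdef]; group
    rw [e, conj_pow3 e3, Helper17.FU.conj_pow e2]
    congr 1; ring
  have hf6 : ∀ j : ℤ, φ (τ ^ (6 * j)) = φ (τ ^ j) := by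
    intro j
    rw [← hP, hφc]
  have h6 : ∀ (K : ℕ) (x : ℚ), ((P ^ K : (Subgroup.closure {s2, s3, t} :
      Subgroup (Equiv.Perm ℚ))) : Equiv.Perm ℚ) x = 6 ^ K * x := by
    intro K
    induction K with
    | zero => intro x; simp
    | succ K ih =>
      intro x
      rw [pow_succ, Subgroup.coe_mul, Equiv.Perm.mul_apply, ih, hPdef, Subgroup.coe_mul,
        Equiv.Perm.mul_apply, hσ2, hσ3]
      rw [h2, h3, pow_succ]; ring
  -- translations are conjugate to integer translations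
  have htrans : ∀ n : (Subgroup.closure {s2, s3, t} : Subgroup (Equiv.Perm ℚ)),
      (∃ r : ℚ, ∀ x : ℚ, (n : Equiv.Perm ℚ) x = x + r) →
      ∃ (K : ℕ) (m : ℤ), P ^ K * n * (P ^ K)⁻¹ = τ ^ m := by
    rintro n ⟨r, hr⟩
    obtain ⟨β, s, hβ, hS1, hS1', hSs, hx⟩ := aff_of_mem h2 h3 ht n.2
    have hs0 : s = r := by
      have h4 := hx 0
      rw [hr 0] at h4
      linarith
    obtain ⟨K, m, hm⟩ := hSs
    rw [hs0] at hm
    refine ⟨K, m, ?_⟩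
    have : P ^ K * n = τ ^ m * P ^ K := by
      apply Subtype.ext
      ext x
      rw [Subgroup.coe_mul, Subgroup.coe_mul, Equiv.Perm.mul_apply, Equiv.Perm.mul_apply, h6, h6,
        hr, Subgroup.coe_zpow, hτ, t_zpow ht]
      rw [← hm]; ring
    rw [this]; group
  -- a nontrivial translation
  have hcase : ∀ n : (Subgroup.closure {s2, s3, t} : Subgroup (Equiv.Perm ℚ)), n ≠ 1 →
      (∃ r : ℚ, ∀ x : ℚ, (n : Equiv.Perm ℚ) x = x + r) →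
      ∃ (m : ℤ) (σ : (Subgroup.closure {s2, s3, t} : Subgroup (Equiv.Perm ℚ))), m ≠ 0 ∧
        n = σ * τ ^ m * σ⁻¹ := by
    intro n hn hr
    obtain ⟨K, m, hm⟩ := htrans n hr
    refine ⟨m, (P ^ K)⁻¹, ?_, ?_⟩
    · intro h0
      rw [h0, zpow_zero] at hm
      apply hn
      have : n = (P ^ K)⁻¹ * (P ^ K * n * (P ^ K)⁻¹) * P ^ K := by group
      rw [this, hm]; group
    · rw [← hm]; group
  -- recurrence for powers of the generator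
  have hrec : ∀ m : ℤ, m ≠ 0 → Recur φ (τ ^ m) := by
    intro m hm
    apply recur_of_dense hφ1 hφc
    intro ε hε
    by_contra hcon
    push Not at hcon
    apply hΔ
    refine eq_indicator h2 h3 ht φ hφT τ hτ ?_
    refine vanish_all hφ1 hf6 hm ?_
    intro i hi
    have hs2 : σ2 * τ ^ m * σ2⁻¹ = (τ ^ m) ^ (2 : ℤ) := by
      rw [Helper17.FU.conj_pow e2, ← zpow_mul, mul_comm]
    have hs3 : σ3 * τ ^ m * σ3⁻¹ = (τ ^ m) ^ (3 : ℤ) := by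
      rw [conj_pow3 e3, ← zpow_mul, mul_comm]
    have hz := szego_zero hφ' σ2 σ3 (τ ^ m) hs2 hs3 (fun l => ?_) (c := ε ^ 2) (by positivity)
      (fun Q hQ => pow_le_pow_left₀ hε.le (hcon Q hQ) 2) i hi
    · rw [← zpow_mul] at hz
      exact hz
    · have e : rf φ (τ ^ m) l = rf φ τ (m * l) := by
        funext j
        unfold rf
        rw [← zpow_mul, mul_assoc]
      rw [e]
      exact ergodic_part hφ' σ2 σ3 τ e2 e3 ecomm hgen (m * l)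
  refine ⟨?_, ?_⟩
  · intro h hh hr ε hε
    obtain ⟨m, σ0, hm, hσ0⟩ := hcase h hh hr
    obtain ⟨N, c, hNc⟩ := hrec m hm ε hε
    refine ⟨N, c, fun g σ => ?_⟩
    have e : σ * h * σ⁻¹ = (σ * σ0) * τ ^ m * (σ * σ0)⁻¹ := by rw [hσ0]; group
    rw [e]
    exact hNc g (σ * σ0)
  · by_cases hfd : FiniteDimensional ℂ (Submodule.span ℂ
      {F : (Subgroup.closure {s2, s3, t} : Subgroup (Equiv.Perm ℚ)) → ℂ | ∃ n :
        (Subgroup.closure {s2, s3, t} : Subgroup (Equiv.Perm ℚ)),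
          (∃ r : ℚ, ∀ x : ℚ, (n : Equiv.Perm ℚ) x = x + r) ∧ F = fun x => φ (n * x)})
    · left; exact hfd
    right
    intro h hh hr
    obtain ⟨m, σ0, hm, hσ0⟩ := hcase h hh hr
    have hs2 : σ2 * τ ^ m * σ2⁻¹ = (τ ^ m) ^ (2 : ℤ) := by
      rw [Helper17.FU.conj_pow e2, ← zpow_mul, mul_comm]
    have hs3 : σ3 * τ ^ m * σ3⁻¹ = (τ ^ m) ^ (3 : ℤ) := by
      rw [conj_pow3 e3, ← zpow_mul, mul_comm]
    have hW : Tendsto (fun L : ℕ => WW φ (τ ^ m) L / (L : ℝ) ^ 2) atTop (nhds 0) := by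
      obtain ⟨μ, hμp, hμ⟩ := herglotz (rf_pdz (φ := φ) (τ ^ m) 1)
        (by unfold rf; simp [hφ1])
      have hμ' : ∀ n : ℤ, ∫ x, fourier n x ∂μ = φ ((τ ^ m) ^ n) := by
        intro n
        rw [hμ n]; unfold rf; rw [one_mul]
      by_cases hat : ∀ x : Tor, μ {x} = 0
      · exact wiener (τ ^ m) μ hμ' hat
      · exfalso
        push Not at hat
        obtain ⟨x0, hx0⟩ := hat
        obtain ⟨k, hk, hker⟩ := atom_kernel hφ' σ2 σ3 τ (τ ^ m) hs2 hs3 hgen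
          (by intro j; rw [← zpow_mul]; group) μ hμ' hx0
        apply hfd
        have hk6 : (6 : ℤ) ^ k - 1 ≠ 0 := by
          have : (6 : ℤ) ^ 1 ≤ 6 ^ k := pow_le_pow_right₀ (by norm_num) hk
          omega
        rw [← zpow_mul] at hker
        exact fd_of_kernel hφ1 hφc P τ hP (mul_ne_zero hm hk6) hker
          {n | ∃ r : ℚ, ∀ x : ℚ, (n : Equiv.Perm ℚ) x = x + r} htrans
    have hint := intermediate hφ1 hφc (τ ^ m) (hrec m hm) hW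
    have hmain : ∀ ε : ℝ, 0 < ε → ∃ δ : ℝ, 0 < δ ∧ ∃ L : ℕ,
        ∀ g σ : (Subgroup.closure {s2, s3, t} : Subgroup (Equiv.Perm ℚ)), ε ≤ ‖φ g‖ →
          ∃ j : ℕ, 1 ≤ j ∧ j ≤ L ∧ δ ≤ ‖φ (g * (σ * h * σ⁻¹) ^ j)‖ ∧
            ‖φ (g * (σ * h * σ⁻¹) ^ j)‖ < ε := by
      intro ε hε
      obtain ⟨δ, hδ, L, hL⟩ := hint ε hε
      refine ⟨δ, hδ, L, fun g σ hg => ?_⟩
      have e : σ * h * σ⁻¹ = (σ * σ0) * τ ^ m * (σ * σ0)⁻¹ := by rw [hσ0]; group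
      rw [e]
      exact hL g (σ * σ0) hg
    refine ⟨hmain, ?_⟩
    intro ε hε
    obtain ⟨δ, hδ, L, hL⟩ := hmain (min ε 1) (lt_min hε one_pos)
    obtain ⟨j, hj1, -, hj2, hj3⟩ := hL 1 1 (by rw [hφ1, norm_one]; exact min_le_right _ _)
    rw [one_mul, one_mul, inv_one, mul_one] at hj2 hj3
    refine ⟨j, hj1, ?_, hj3.trans_le (min_le_left _ _)⟩
    intro h0
    rw [h0, norm_zero] at hj2
    linarith

end Pool.Agent.Results.MP_81910f_an.ScaleFreeRecurrence
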